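import Pool.Agent.Q187.BKL.Zb
import Pool.Agent.Q111.BKL.PQ
import Pool.Agent.Q111.BKL.PAR
import Pool.Agent.Q257.BKL.DIST
import Pool.Agent.Q187.BKL.Bl
import Pool.Agent.Q187.BKL.Add
import Pool.Agent.Q111.BKL.DER
import Pool.Agent.Q187.BKL.Kp
import Pool.Agent.Q187.BKL.Comm
import Pool.Agent.Q111.BKL.COEF
import Pool.Agent.Q187.BKL.M2
import Pool.Agent.Q38.BKL.IR1
import Pool.Agent.Q38.BKL.IR2
import Pool.Agent.Q38.BKL.IR3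
import Pool.Agent.Q38.BKL.IR4
import Pool.Agent.Q38.BKL.IR5
import Pool.Agent.Q38.BKL.XY
import Pool.Agent.Q111.BKL.F1
import Pool.Agent.Q92.BKL.F2
import Pool.Agent.Q92.BKL.IRS
import Pool.Agent.Q111.BKL.IRK
import Pool.Agent.Q38.BKL.ALG
import Pool.Agent.Q187.BKL.Ev
import Pool.Agent.Q177.BKL.CMP
import Pool.Agent.Q177.BKL.WSUB
import Pool.Agent.Q14.BKL.NSUB
import Pool.Agent.Q14.BKL.EQ0
import Pool.Agent.Q111.BKL.JD
import Pool.Agent.Q14.BKL.IND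
import Pool.Agent.Y687.MQ.Abs

/-!
# Central values of all even weights: the assembly
-/

set_option autoImplicit false

open Filter
open scoped Topology PeriodPair

namespace Pool.Agent.Q274.BKL

open H667R3 Pool.Agent.TH936.CM Pool.Agent.TH936.PU Pool.Agent.TH936.CW
open Pool.Agent.W192.HK (sp nm)
open Pool.Agent.Y698
open Pool.Agent.Y698.SG

/-- the congruence of all the even weights -/
theorem cmp_all : ∀ (L : PeriodPair) (Ω q : ℂ), Dat L Ω q → ∀ (Γ : Type)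
    [LinearOrderedCommGroupWithZero Γ] (v : Valuation ℂ Γ), v al < 1 → ∀ (z : ℂ) (n : ℕ),
    Oz L z → Even n → 2 ≤ n → v (Mk L q n z - Mk L q 2 z) ≤ v 4 :=
  Pool.Agent.Q177.BKL.t_CMP Pool.Agent.Q187.BKL.t_EV Pool.Agent.Q187.BKL.t_COMM
    Pool.Agent.Q111.BKL.t_COEF Pool.Agent.Q38.BKL.t_ALG Pool.Agent.Q187.BKL.t_ADD
    Pool.Agent.Q111.BKL.t_DER Pool.Agent.Q187.BKL.t_KD Pool.Agent.Q38.BKL.t_IR1
    Pool.Agent.Q38.BKL.t_IR2 Pool.Agent.Q38.BKL.t_IR4 Pool.Agent.Q38.BKL.t_XY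
    Pool.Agent.Q111.BKL.F.t_F1 Pool.Agent.Q92.BKL.t_F2 Pool.Agent.Q92.BKL.t_IRS
    Pool.Agent.Q111.BKL.K.t_IRK Pool.Agent.Q187.BKL.t_ZB Pool.Agent.Q187.BKL.t_BL
    Pool.Agent.Q38.BKL.t_IR3 Pool.Agent.Q38.BKL.t_IR5 Pool.Agent.Q187.BKL.t_KP

theorem ck_of (hK3 : S_K3) : S_CK := by
  intro L Ω q hD Γ _ v hv z n hz hn h2
  have h1 := cmp_all L Ω q hD Γ v hv (bl * z) n (Pool.Agent.Q92.BKL.Oz.mul hD.ld hz) hn h2
  have h3 := hK3 Pool.Agent.Q187.BKL.t_ZB Pool.Agent.Q187.BKL.t_BL Pool.Agent.Q187.BKL.t_AL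
    Pool.Agent.Q187.BKL.t_M2 Pool.Agent.Q111.BKL.t_DER Pool.Agent.Q111.BKL.F.t_F1
    Pool.Agent.Q92.BKL.t_F2 L Ω q hD Γ v hv z hz
  have e : Mk L q n (bl * z) - N1 L q z = (Mk L q n (bl * z) - Mk L q 2 (bl * z)) +
      (Mk L q 2 (bl * z) - N1 L q z) := by ring
  rw [e]
  exact (v.map_add _ _).trans (max_le h1 h3)

/-- a valuation above `al` -/
theorem exists_val : ∃ (Γ : Type) (_ : LinearOrderedCommGroupWithZero Γ) (v : Valuation ℂ Γ),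
    v al < 1 := by
  have hirrA : Irreducible aR := irr_of_prime_norm (by rw [aR_nR]; norm_num)
  have hp : (sp aR).IsPrime := (maximal_sp hirrA).isPrime
  obtain ⟨B, hB⟩ := exists_vs (sp aR)
  have h1 := hB aR (Ideal.mem_span_singleton_self _)
  rw [aR_coe] at h1
  exact ⟨_, _, B.valuation, h1⟩

/-- the sums do not vanish, for all even weights -/
theorem bw_ne (hCK : S_CK) {Q P : Finset ℕ} (hQ : ∀ r ∈ Q, Inq r) (hP : ∀ r ∈ P, Spl r)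
    (hdet : (mat Q P).det ≠ 0) (h2 : ∏ r ∈ Q ∪ P, qch r 2 = 1) {L : PeriodPair} {Ω q : ℂ}
    (hD : Dat L Ω q) [Fintype (RR ⧸ sp fR)] {e : ℕ} (he : Even e) :
    Bw Ω (Mk L q e) ((∏ r ∈ Q ∪ P, r : ℕ) : RR) (fun m => ∏ r ∈ Q ∪ P, qch r (nR m)) ≠ 0 := by
  classical
  obtain ⟨Γ, _, v, hv⟩ := exists_val
  obtain ⟨ϖ, hc⟩ := exists_cho inp.pi hP
  have hfam := fam inp.pd1 inp.pd2 hQ hP hc
  have hg := gd_ne inp.ns1 inp.pd1 inp.pd2 inp.rc hQ hP hc hdet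
  have hsy := fun x => prod_sy inp.pd1 inp.pd2 hQ hP hc x
  have h20 : v 2 ≠ 0 := (Valuation.ne_zero_iff v).2 two_ne_zero
  have h40 : v 4 ≠ 0 := (Valuation.ne_zero_iff v).2 (by norm_num)
  have ha : ∏ i ∈ ix Q P, sy (pf Q ϖ i) aR = 1 := by rw [hsy, aR_nR]; exact_mod_cast h2
  have hb : ∏ i ∈ ix Q P, sy (pf Q ϖ i) bR = 1 := by rw [hsy, nR_bR]; exact_mod_cast h2
  have e1 : Bw Ω (Mk L q e) ((∏ r ∈ Q ∪ P, r : ℕ) : RR) (fun m => ∏ r ∈ Q ∪ P, qch r (nR m)) =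
      Bw Ω (Mk L q e) (∏ i ∈ ix Q P, pf Q ϖ i) (fun x => ∏ i ∈ ix Q P, sy (pf Q ϖ i) x) := by
    rw [prod_pf hQ hP hc]
    congr 1
    funext x
    exact (hsy x).symm
  rw [e1]
  rcases Nat.eq_zero_or_pos e with rfl | hpos
  · obtain ⟨F, -, -, hF⟩ := val_one
    have hL := hD.ld.lat
    have hT := hF L Ω hL
    obtain ⟨T, hTd⟩ : ∃ T : ℂ, T = 2 * (starRingEnd ℂ) (F 1) * fR / Ω := ⟨_, rfl⟩
    rw [← hTd] at hT
    have hvT : v T = 1 := hD.ld.v_T hv hT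
    intro h0
    have h1 := Pool.Agent.Q14.BKL.t_EQ0 Pool.Agent.Q111.BKL.P.t_PAR Pool.Agent.Q257.BKL.t_DIST
      L Ω q hD T hT _ _ (Gd.prod fun i hi => ⟨(hfam.pd i hi).pr.ne_zero, (hfam.pd i hi).cop⟩) (Pe.prod fun i _ => sy_per (pf Q ϖ i))
    have h2 := v_quad inp.rec' hD.ld hv hT hvT hfam hg
    rw [← h1, h0, map_zero] at h2
    exact pow_ne_zero _ h20 h2.symm
  · have h3 : 2 ≤ e := by
      obtain ⟨k, hk⟩ := he
      omega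
    have h4 := Pool.Agent.Q14.BKL.t_IND Pool.Agent.Q111.BKL.P.t_PAR Pool.Agent.Q257.BKL.t_DIST
      Pool.Agent.Q177.BKL.t_WSUB Pool.Agent.Q14.BKL.t_NSUB Pool.Agent.Q14.BKL.t_EQ0 hCK
      Pool.Agent.Q111.BKL.J.t_JD L Ω q hD Γ v hv _ (ix Q P) (pf Q ϖ) hfam hg ha hb e he h3
    intro h0
    rw [h0, map_zero] at h4
    exact mul_ne_zero h40 (pow_ne_zero _ h20) h4.symm

end Pool.Agent.Q274.BKL
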