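import Pool.Agent.Q274.BKL.Ep
import Pool.Agent.Q174.BKL.K3

/-!
# The L-functions of the twists by their Euler products over the rational primes
-/

set_option autoImplicit false

open Filter
open scoped Topology PeriodPair

namespace Pool.Agent.Q274.BKL

open H667R3 Pool.Agent.TH936.CM Pool.Agent.TH936.PU Pool.Agent.TH936.CW
open Pool.Agent.W192.HK (sp nm)
open Pool.Agent.Y698
open Pool.Agent.Y698.SG

/-- the comparison with weight zero -/
theorem t_CK : S_CK := ck_of Pool.Agent.Q174.BKL.t_K3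

/-- `p` minus the number of the affine points of `y² + x y = x³ - x² - 2 x - 1` modulo `p` -/
noncomputable def aa (p : ℕ) : ℤ := p - Nat.card {x : ZMod p × ZMod p //
  x.2 ^ 2 + x.1 * x.2 = x.1 ^ 3 - x.1 ^ 2 - 2 * x.1 - 1}

/-- the sums of the `n`-th powers of the roots of `X² - a X + p` -/
noncomputable def uu (p : ℕ) : ℕ → ℤ
  | 0 => 2
  | 1 => aa p
  | n + 2 => aa p * uu p (n + 1) - p * uu p n

/-- the Euler factor -/
noncomputable def ef (D i : ℕ) (s : ℂ) (p : ℕ) : ℂ :=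
  1 - (jacobiSym p D * uu p (2 * i + 1) : ℤ) * (p : ℂ) ^ (-(s + i + 1)) +
    (if p = 7 then 0 else 1) * ((jacobiSym p D ^ 2 * p ^ (2 * i + 1) : ℤ) : ℂ) *
      ((p : ℂ) ^ (-(s + i + 1))) ^ 2

lemma aa_two : aa 2 = 1 := by
  have h : Nat.card {x : ZMod 2 × ZMod 2 //
      x.2 ^ 2 + x.1 * x.2 = x.1 ^ 3 - x.1 ^ 2 - 2 * x.1 - 1} = 1 := by
    rw [Nat.card_eq_fintype_card]
    decide
  unfold aa
  rw [h]
  norm_num

lemma aa_seven : aa 7 = 0 := by
  have h : Nat.card {x : ZMod 7 × ZMod 7 //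
      x.2 ^ 2 + x.1 * x.2 = x.1 ^ 3 - x.1 ^ 2 - 2 * x.1 - 1} = 7 := by
    rw [Nat.card_eq_fintype_card]
    decide
  unfold aa
  rw [h]
  norm_num

lemma card_Aff {p : ℕ} [Fact p.Prime] (hp2 : p ≠ 2) :
    Nat.card {x : ZMod p × ZMod p // x.2 ^ 2 + x.1 * x.2 = x.1 ^ 3 - x.1 ^ 2 - 2 * x.1 - 1} =
      Nat.card (Aff (ZMod p)) := by
  have hp : p.Prime := Fact.out
  have h2 : (2 : ZMod p) ≠ 0 := by
    intro h0
    have h3 : ((2 : ℕ) : ZMod p) = 0 := by exact_mod_cast h0
    rw [ZMod.natCast_eq_zero_iff] at h3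
    exact hp2 ((Nat.prime_dvd_prime_iff_eq hp Nat.prime_two).1 h3)
  have h64 : (64 : ZMod p) ≠ 0 := by
    have : (64 : ZMod p) = 2 ^ 6 := by norm_num
    rw [this]
    exact pow_ne_zero _ h2
  have heq : ∀ x y : ZMod p, y ^ 2 + x * y = x ^ 3 - x ^ 2 - 2 * x - 1 ↔
      (4 * (2 * y + x)) ^ 2 = (4 * x - 1) ^ 3 + ((-35 : ℤ) : ZMod p) * (4 * x - 1) +
        ((-98 : ℤ) : ZMod p) := by
    intro x y
    push_cast
    constructor
    · intro h
      linear_combination 64 * h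
    · intro h
      apply mul_left_cancel₀ h64
      linear_combination h
  apply Nat.card_congr
  refine
    { toFun := fun z => ⟨(4 * z.1.1 - 1, 4 * (2 * z.1.2 + z.1.1)), (heq _ _).1 z.2⟩
      invFun := fun z => ⟨((z.1.1 + 1) / 4, (z.1.2 / 4 - (z.1.1 + 1) / 4) / 2), ?_⟩
      left_inv := fun z => ?_
      right_inv := fun z => ?_ }
  · have h4 : (4 : ZMod p) ≠ 0 := by
      have : (4 : ZMod p) = 2 ^ 2 := by norm_num
      rw [this]
      exact pow_ne_zero _ h2
    rw [heq]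
    have e1 : 4 * ((z.1.1 + 1) / 4) - 1 = z.1.1 := by
      field_simp
      ring
    have e2 : 4 * (2 * ((z.1.2 / 4 - (z.1.1 + 1) / 4) / 2) + (z.1.1 + 1) / 4) = z.1.2 := by
      field_simp
      ring
    show (4 * (2 * ((z.1.2 / 4 - (z.1.1 + 1) / 4) / 2) + (z.1.1 + 1) / 4)) ^ 2 = _
    rw [e1, e2]
    exact z.2
  · have h4 : (4 : ZMod p) ≠ 0 := by
      have : (4 : ZMod p) = 2 ^ 2 := by norm_num
      rw [this]
      exact pow_ne_zero _ h2
    apply Subtype.ext
    apply Prod.ext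
    · show (4 * z.1.1 - 1 + 1) / 4 = z.1.1
      field_simp
      ring
    · show (4 * (2 * z.1.2 + z.1.1) / 4 - (4 * z.1.1 - 1 + 1) / 4) / 2 = z.1.2
      field_simp
      ring
  · have h4 : (4 : ZMod p) ≠ 0 := by
      have : (4 : ZMod p) = 2 ^ 2 := by norm_num
      rw [this]
      exact pow_ne_zero _ h2
    apply Subtype.ext
    apply Prod.ext
    · show 4 * ((z.1.1 + 1) / 4) - 1 = z.1.1
      field_simp
      ring
    · show 4 * (2 * ((z.1.2 / 4 - (z.1.1 + 1) / 4) / 2) + (z.1.1 + 1) / 4) = z.1.2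
      field_simp
      ring

/-- the coefficients at all the primes -/
theorem bc_aa {p : ℕ} (hp : p.Prime) : bc p = (aa p : ℂ) := by
  by_cases h2 : p = 2
  · subst h2
    rw [bc_two, aa_two]
    norm_num
  by_cases h7 : p = 7
  · subst h7
    have h1 := bc_seven 0
    rw [zero_add, pow_one] at h1
    rw [h1, aa_seven]
    norm_num
  · have : Fact p.Prime := ⟨hp⟩
    rw [bc_odd hp h2 h7]
    unfold aa
    rw [card_Aff h2]

lemma lu_uu {p : ℕ} (hp : p.Prime) (n : ℕ) : Ep.lu (bc p) p n = (uu p n : ℂ) := by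
  induction n using Nat.twoStepInduction with
  | zero => simp [Ep.lu, uu]
  | one => simp [Ep.lu, uu, bc_aa hp]
  | more n h1 h2 =>
    rw [Ep.lu, uu, h1, h2, bc_aa hp]
    push_cast
    rfl

/-- **the central values of all even weights** -/
theorem central_ep {D : ℕ} (hD : BKC.Cl 7 D) (h0 : BKC.corank 7 D = 0) {i : ℕ} (hi : Even i) :
    ∃ F : ℂ → ℂ, Differentiable ℂ F ∧ (∀ s : ℂ, 1 / 2 < s.re →
      HasProd (fun p : Nat.Primes => (ef D i s p)⁻¹) (F s)) ∧ F 0 ≠ 0 := by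
  classical
  obtain ⟨F, g1, g2, g3⟩ := Pool.Agent.Q203.BKL.t_CEN Pool.Agent.Q111.BKL.P.t_PAR
    Pool.Agent.Q257.BKL.t_DIST (IP D) (BKC.SP 7 D) (IP_inq hD) (SP_spl hD) i
  refine ⟨fun s => F (s + i + 1), g1.comp (by fun_prop), fun s hs => ?_, fun h => ?_⟩
  · have h1 := g2 (s + i + 1) (by
      rw [Complex.add_re, Complex.add_re, Complex.natCast_re, Complex.one_re]
      push_cast
      linarith)
    have h2 := Ep.prod_pe i (f := fun n => ∏ r ∈ IP D ∪ BKC.SP 7 D, qch r (n : ℤ))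
      (by simp [qch_one])
      (by
        intro m n
        rw [← Finset.prod_mul_distrib]
        refine Finset.prod_congr rfl fun q _ => ?_
        push_cast
        exact qch_mul _ _ _) h1
    convert h2 using 3 with p
    have e1 : ∏ r ∈ IP D ∪ BKC.SP 7 D, qch r ((p : ℕ) : ℤ) = ((jacobiSym (p : ℕ) D : ℤ) : ℂ) := by
      have key : ∀ S : Finset ℕ, (∀ p ∈ S, p.Prime) → ∀ a : ℤ, jacobiSym a (∏ p ∈ S, p) =
          ∏ r ∈ S, jacobiSym a r := by
        intro S
        induction S using Finset.induction_on with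
        | empty => intro _ a; simp
        | insert b S ha ih =>
          intro hS a
          have ha0 : NeZero b := ⟨(hS b (Finset.mem_insert_self _ _)).ne_zero⟩
          have hS0 : NeZero (∏ p ∈ S, p) := ⟨Finset.prod_ne_zero_iff.2 fun p hp =>
            (hS p (Finset.mem_insert_of_mem hp)).ne_zero⟩
          rw [Finset.prod_insert ha, Finset.prod_insert ha, jacobiSym.mul_right,
            ih fun p hp => hS p (Finset.mem_insert_of_mem hp)]
      rw [IP_union]
      conv_rhs => rw [← Nat.prod_primeFactors_of_squarefree hD.sqf]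
      rw [key _ fun p hp => Nat.prime_of_mem_primeFactors hp, Int.cast_prod]
      rfl
    rw [e1, lu_uu p.2]
    unfold ef Ep.ee
    split_ifs with h7
    · push_cast
      ring
    · push_cast
      ring
  · have := fin_quot fR_ne
    let _ : Fintype (RR ⧸ sp fR) := Fintype.ofFinite _
    obtain ⟨L, Ω, hL⟩ := exists_LD
    obtain ⟨q, hq⟩ := Pool.Agent.Q111.BKL.PQ.t_PQ Pool.Agent.Q187.BKL.t_ZB L Ω hL
    have h3 : F ((i + 1 : ℕ) : ℂ) = 0 := by
      have e : (((i + 1 : ℕ)) : ℂ) = 0 + i + 1 := by push_cast; ring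
      rw [e]
      exact h
    exact bw_ne t_CK (IP_inq hD) (SP_spl hD) (det_ne h0) (qch_two hD) hq hi ((g3 L Ω q hq).1 h3)

end Pool.Agent.Q274.BKL
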