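import Pool.Agent.Q274.BKL.Fn

/-!
# The Euler products of the powers of the Hecke character
-/

set_option autoImplicit false
set_option linter.unusedSectionVars false

namespace Pool.Agent.Q274.BKL.Ep

open H667R3 Pool.Agent.W192.HK Pool.Agent.TH936.CM Pool.Agent.TH936.PU Pool.Agent.Y698

/-- completely multiplicative functions of the ideals -/
class Mu (φ : Ideal RR → ℂ) : Prop where
  mul : ∀ I J, φ (I * J) = φ I * φ J
  one : φ ⊤ = 1
  zero : φ ⊥ = 0

variable {φ : Ideal RR → ℂ} [Mu φ]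

/-- the coefficients -/
noncomputable def bg (φ : Ideal RR → ℂ) (n : ℕ) : ℂ := ∑ I ∈ Tn n, φ I

lemma bg_zero : bg φ 0 = 0 := by
  unfold bg
  apply Finset.sum_eq_zero
  intro I hI
  rw [mem_Tn, nI_eq_zero] at hI
  rw [hI, Mu.zero (φ := φ)]

lemma bg_one : bg φ 1 = 1 := by
  classical
  have : Tn 1 = {⊤} := by
    ext I
    rw [mem_Tn, nI_eq_one, Finset.mem_singleton]
  unfold bg
  rw [this, Finset.sum_singleton, Mu.one (φ := φ)]

theorem bg_mul {m n : ℕ} (h : Nat.Coprime m n) : bg φ (m * n) = bg φ m * bg φ n := by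
  classical
  by_cases hm0 : m = 0
  · rw [hm0, zero_mul, bg_zero, zero_mul]
  by_cases hn0 : n = 0
  · rw [hn0, mul_zero, bg_zero, mul_zero]
  unfold bg
  rw [Finset.sum_mul_sum, ← Finset.sum_product']
  symm
  refine Finset.sum_bij (fun p _ => p.1 * p.2) ?_ ?_ ?_ ?_
  · rintro ⟨I, J⟩ hIJ
    rw [Finset.mem_product, mem_Tn, mem_Tn] at hIJ
    rw [mem_Tn, nI_mul, hIJ.1, hIJ.2]
  · rintro ⟨I, J⟩ hIJ ⟨I', J'⟩ hIJ' he
    rw [Finset.mem_product, mem_Tn, mem_Tn] at hIJ hIJ'
    simp only at hIJ hIJ' he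
    have mI : (m : RR) ∈ I := by rw [← hIJ.1]; exact nI_mem I
    have nJ : (n : RR) ∈ J := by rw [← hIJ.2]; exact nI_mem J
    have mI' : (m : RR) ∈ I' := by rw [← hIJ'.1]; exact nI_mem I'
    have nJ' : (n : RR) ∈ J' := by rw [← hIJ'.2]; exact nI_mem J'
    have h1 : I ∣ I' := (cop_ideal h mI nJ').dvd_of_dvd_mul_right (by rw [← he]; exact dvd_mul_right _ _)
    have h2 : I' ∣ I := (cop_ideal h mI' nJ).dvd_of_dvd_mul_right (by rw [he]; exact dvd_mul_right _ _)
    have h3 : I = I' := by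
      apply le_antisymm
      · exact Ideal.le_of_dvd h2
      · exact Ideal.le_of_dvd h1
    subst h3
    have hI0 : I ≠ ⊥ := by
      intro h0
      rw [h0, nI_eq_zero.2 rfl] at hIJ
      exact hm0 hIJ.1.symm
    have h4 : J = J' := mul_left_cancel₀ (a := I) hI0 he
    rw [h4]
  · intro K hK
    rw [mem_Tn] at hK
    have hmn : ((m : RR) * (n : RR)) ∈ K := by
      have := nI_mem K
      rw [hK] at this
      push_cast at this
      exact this
    set I := K ⊔ sp (m : RR) with hI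
    set J := K ⊔ sp (n : RR) with hJ
    have hIJ : IsCoprime I J := cop_ideal h (Ideal.mem_sup_right (Ideal.mem_span_singleton_self _))
      (Ideal.mem_sup_right (Ideal.mem_span_singleton_self _))
    have hprod : I * J = K := by
      apply le_antisymm
      · rw [hI, hJ, Ideal.sup_mul, Ideal.mul_sup, Ideal.mul_sup]
        refine sup_le (sup_le ?_ ?_) (sup_le ?_ ?_)
        · exact Ideal.mul_le_left
        · exact Ideal.mul_le_left
        · exact Ideal.mul_le_right
        · rw [Ideal.span_singleton_mul_span_singleton, Ideal.span_singleton_le_iff_mem]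
          exact hmn
      · rw [Ideal.mul_eq_inf_of_isCoprime hIJ]
        exact le_inf le_sup_left le_sup_left
    have hN : nI I * nI J = m * n := by rw [← nI_mul, hprod, hK]
    have h1 : nI I ∣ m ^ 2 := by
      rw [← nI_nat]
      exact nI_dvd (Ideal.dvd_iff_le.2 le_sup_right)
    have h2 : nI J ∣ n ^ 2 := by
      rw [← nI_nat]
      exact nI_dvd (Ideal.dvd_iff_le.2 le_sup_right)
    have h3 : nI I ∣ m := by
      have hc : Nat.Coprime (nI I) n :=
        Nat.Coprime.coprime_dvd_left h1 (Nat.Coprime.pow_left 2 h)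
      exact hc.dvd_of_dvd_mul_right (hN ▸ dvd_mul_right _ _)
    have h4 : nI J ∣ n := by
      have hc : Nat.Coprime (nI J) m :=
        Nat.Coprime.coprime_dvd_left h2 (Nat.Coprime.pow_left 2 h.symm)
      exact hc.dvd_of_dvd_mul_left (hN ▸ dvd_mul_left _ _)
    have hm1 := Nat.le_of_dvd (Nat.pos_of_ne_zero hm0) h3
    have hn1 := Nat.le_of_dvd (Nat.pos_of_ne_zero hn0) h4
    have e1 : nI I = m := by
      by_contra hne
      have hlt : nI I < m := lt_of_le_of_ne hm1 hne
      have : nI I * nI J < m * n := Nat.mul_lt_mul_of_lt_of_le hlt hn1 (Nat.pos_of_ne_zero hn0)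
      omega
    have e2 : nI J = n := by
      rw [e1] at hN
      exact Nat.eq_of_mul_eq_mul_left (Nat.pos_of_ne_zero hm0) hN
    exact ⟨(I, J), Finset.mem_product.2 ⟨mem_Tn.2 e1, mem_Tn.2 e2⟩, hprod⟩
  · rintro ⟨I, J⟩ _
    exact (Mu.mul I J).symm

/-- inert primes -/
lemma bg_inert {p : ℕ} (hirr : Irreducible (p : RR)) (hp : p.Prime) :
    bg φ p = 0 ∧ ∀ k : ℕ, bg φ (p ^ (k + 2)) = φ (sp (p : RR)) * bg φ (p ^ k) := by
  classical
  have hprime : Prime (p : RR) := hirr.prime
  have hdiv : ∀ g : RR, (p : ℤ) ∣ nR g → (p : RR) ∣ g := by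
    intro g hg
    have h1 : (p : RR) ∣ g * cj g := by
      rw [mul_cj]
      obtain ⟨c, hc⟩ := hg
      rw [hc]
      push_cast
      exact dvd_mul_right _ _
    rcases hprime.dvd_or_dvd h1 with h2 | h2
    · exact h2
    · obtain ⟨c, hc⟩ := h2
      refine ⟨cj c, ?_⟩
      have := congrArg cj hc
      rw [cj_cj, map_mul, map_natCast] at this
      exact this
  have hdivI : ∀ I : Ideal RR, p ∣ nI I → sp (p : RR) ∣ I := by
    intro I hI
    obtain ⟨g, rfl⟩ := exists_gen I
    rw [nI_sp] at hI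
    have : (p : ℤ) ∣ nR g := Int.natCast_dvd.2 hI
    rw [Ideal.dvd_iff_le, Ideal.span_singleton_le_span_singleton]
    exact hdiv g this
  constructor
  · unfold bg
    apply Finset.sum_eq_zero
    intro I hI
    exfalso
    rw [mem_Tn] at hI
    obtain ⟨J, hJ⟩ := hdivI I (by rw [hI])
    rw [hJ, nI_mul, nI_nat] at hI
    have h1 : p ^ 2 ∣ p := ⟨_, hI.symm⟩
    have h2 := Nat.le_of_dvd hp.pos h1
    nlinarith [hp.two_le]
  · intro k
    unfold bg
    rw [Finset.mul_sum]
    symm
    refine Finset.sum_bij (fun J _ => sp (p : RR) * J) ?_ ?_ ?_ ?_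
    · intro J hJ
      rw [mem_Tn] at hJ ⊢
      rw [nI_mul, nI_nat, hJ]
      ring
    · intro J _ J' _ he
      refine mul_left_cancel₀ (a := sp (p : RR)) ?_ he
      rw [Ideal.zero_eq_bot, Ne, Ideal.span_singleton_eq_bot]
      exact hirr.ne_zero
    · intro I hI
      rw [mem_Tn] at hI
      obtain ⟨J, hJ⟩ := hdivI I (by rw [hI]; exact dvd_pow_self p (by omega))
      refine ⟨J, ?_, hJ.symm⟩
      rw [mem_Tn]
      rw [hJ, nI_mul, nI_nat] at hI
      have h1 : p ^ 2 * nI J = p ^ 2 * p ^ k := by rw [hI]; ring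
      exact Nat.eq_of_mul_eq_mul_left (pow_pos hp.pos 2) h1
    · intro J _
      rw [Mu.mul (φ := φ)]

/-- split primes -/
lemma bg_split {p : ℕ} (hp : p.Prime) {g : RR} (hg : nR g = p) (hne : sp g ≠ sp (cj g)) :
    bg φ p = φ (sp g) + φ (sp (cj g)) ∧ ∀ k : ℕ, bg φ (p ^ (k + 2)) =
      bg φ p * bg φ (p ^ (k + 1)) - φ (sp (p : RR)) * bg φ (p ^ k) := by
  classical
  have hirr : Irreducible g := irr_of_prime_norm (by rw [hg]; exact_mod_cast hp)
  have hcg : nR (cj g) = p := by
    have h1 : ((nR (cj g) : ℤ) : RR) = ((nR g : ℤ) : RR) := by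
      rw [← mul_cj, ← mul_cj, cj_cj, mul_comm]
    have : nR (cj g) = nR g := by
      have h2 := congrArg (fun r : RR => (r : ℂ)) h1
      push_cast at h2
      exact_mod_cast h2
    rw [this, hg]
  have hirr' : Irreducible (cj g) := irr_of_prime_norm (by rw [hcg]; exact_mod_cast hp)
  have hpg : (p : RR) = g * cj g := by
    rw [mul_cj, hg]
    norm_cast
  have hP0 : sp g ≠ 0 := by
    rw [Ideal.zero_eq_bot, Ne, Ideal.span_singleton_eq_bot]
    exact hirr.ne_zero
  have hQ0 : sp (cj g) ≠ 0 := by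
    rw [Ideal.zero_eq_bot, Ne, Ideal.span_singleton_eq_bot]
    exact hirr'.ne_zero
  have hNP : nI (sp g) = p := by rw [nI_sp, hg]; exact Int.natAbs_natCast p
  have hNQ : nI (sp (cj g)) = p := by rw [nI_sp, hcg]; exact Int.natAbs_natCast p
  have hcop : IsCoprime (sp g) (sp (cj g)) := by
    rw [Ideal.isCoprime_iff_sup_eq]
    refine (maximal_sp hirr).out.2 _ (lt_of_le_of_ne le_sup_left ?_)
    intro h1
    have h2 : sp (cj g) ≤ sp g := by
      rw [h1]
      exact le_sup_right
    rcases lt_or_eq_of_le h2 with h3 | h3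
    · exact (maximal_sp hirr).ne_top ((maximal_sp hirr').out.2 _ h3)
    · exact hne h3.symm
  -- every ideal whose norm is divisible by `p` is divisible by one of the two primes
  have hdiv : ∀ I : Ideal RR, p ∣ nI I → sp g ∣ I ∨ sp (cj g) ∣ I := by
    intro I hI
    obtain ⟨x, rfl⟩ := exists_gen I
    rw [nI_sp] at hI
    have h0 : (p : ℤ) ∣ nR x := Int.natCast_dvd.2 hI
    have h1 : g ∣ x * cj x := by
      rw [mul_cj]
      obtain ⟨c, hc⟩ := h0
      rw [hc]
      push_cast
      rw [hpg]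
      exact Dvd.dvd.mul_right (dvd_mul_right _ _) _
    rcases hirr.prime.dvd_or_dvd h1 with h2 | h2
    · left
      rwa [Ideal.dvd_iff_le, Ideal.span_singleton_le_span_singleton]
    · right
      rw [Ideal.dvd_iff_le, Ideal.span_singleton_le_span_singleton]
      obtain ⟨c, hc⟩ := h2
      refine ⟨cj c, ?_⟩
      have := congrArg cj hc
      rw [cj_cj, map_mul] at this
      exact this
  have himg : ∀ (P : Ideal RR), P ≠ 0 → nI P = p → ∀ k : ℕ,
      ∑ I ∈ (Tn (p ^ (k + 1))).filter (fun I => P ∣ I), φ I = φ P * bg φ (p ^ k) := by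
    intro P hP hNP k
    unfold bg
    rw [Finset.mul_sum]
    symm
    refine Finset.sum_bij (fun J _ => P * J) ?_ ?_ ?_ ?_
    · intro J hJ
      rw [mem_Tn] at hJ
      rw [Finset.mem_filter, mem_Tn, nI_mul, hNP, hJ]
      exact ⟨by ring, dvd_mul_right _ _⟩
    · intro J _ J' _ he
      exact mul_left_cancel₀ hP he
    · intro I hI
      rw [Finset.mem_filter, mem_Tn] at hI
      obtain ⟨hI1, J, hJ⟩ := hI
      refine ⟨J, ?_, hJ.symm⟩
      rw [mem_Tn]
      rw [hJ, nI_mul, hNP] at hI1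
      have h1 : p * nI J = p * p ^ k := by rw [hI1]; ring
      exact Nat.eq_of_mul_eq_mul_left hp.pos h1
    · intro J _
      rw [Mu.mul (φ := φ)]
  have hunion : ∀ k : ℕ, Tn (p ^ (k + 1)) = (Tn (p ^ (k + 1))).filter (fun I => sp g ∣ I) ∪
      (Tn (p ^ (k + 1))).filter (fun I => sp (cj g) ∣ I) := by
    intro k
    rw [← Finset.filter_or, Finset.filter_true_of_mem]
    intro I hI
    rw [mem_Tn] at hI
    exact hdiv I (by rw [hI]; exact dvd_pow_self p (by omega))
  have h0 : bg φ (p ^ 0) = 1 := by rw [pow_zero, bg_one]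
  -- the value at `p`
  have hbp : bg φ p = φ (sp g) + φ (sp (cj g)) := by
    have h1 : bg φ (p ^ (0 + 1)) = φ (sp g) + φ (sp (cj g)) := by
      show ∑ I ∈ Tn (p ^ (0 + 1)), φ I = _
      rw [hunion 0, Finset.sum_union]
      · rw [himg _ hP0 hNP 0, himg _ hQ0 hNQ 0, h0, mul_one, mul_one]
      · rw [Finset.disjoint_left]
        intro I hI hI'
        rw [Finset.mem_filter, mem_Tn] at hI hI'
        obtain ⟨J, hJ⟩ := hcop.mul_dvd hI.2 hI'.2
        have h2 := hI.1
        rw [hJ, nI_mul, nI_mul, hNP, hNQ, zero_add, pow_one] at h2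
        have h3 : p * p ∣ p := ⟨_, h2.symm⟩
        have h4 := Nat.le_of_dvd hp.pos h3
        nlinarith [hp.two_le]
    rwa [zero_add, pow_one] at h1
  refine ⟨hbp, fun k => ?_⟩
  have h1 : bg φ (p ^ (k + 2)) + ∑ I ∈ (Tn (p ^ (k + 1 + 1))).filter (fun I => sp g ∣ I) ∩
      (Tn (p ^ (k + 1 + 1))).filter (fun I => sp (cj g) ∣ I), φ I =
      φ (sp g) * bg φ (p ^ (k + 1)) + φ (sp (cj g)) * bg φ (p ^ (k + 1)) := by
    rw [← himg _ hP0 hNP (k + 1), ← himg _ hQ0 hNQ (k + 1), ← Finset.sum_union_inter,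
      ← hunion (k + 1)]
    rfl
  have h2 : ∑ I ∈ (Tn (p ^ (k + 1 + 1))).filter (fun I => sp g ∣ I) ∩
      (Tn (p ^ (k + 1 + 1))).filter (fun I => sp (cj g) ∣ I), φ I =
      φ (sp (p : RR)) * bg φ (p ^ k) := by
    unfold bg
    rw [Finset.mul_sum]
    symm
    refine Finset.sum_bij (fun J _ => sp (p : RR) * J) ?_ ?_ ?_ ?_
    · intro J hJ
      rw [mem_Tn] at hJ
      have e1 : nI (sp (p : RR) * J) = p ^ (k + 1 + 1) := by
        rw [nI_mul, nI_nat, hJ]
        ring
      have e2 : sp (p : RR) = sp g * sp (cj g) := by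
        rw [Ideal.span_singleton_mul_span_singleton, hpg]
      rw [Finset.mem_inter, Finset.mem_filter, Finset.mem_filter, mem_Tn]
      refine ⟨⟨e1, ?_⟩, ⟨e1, ?_⟩⟩
      · rw [e2, mul_assoc]
        exact dvd_mul_right _ _
      · rw [e2, mul_comm (sp g), mul_assoc]
        exact dvd_mul_right _ _
    · intro J _ J' _ he
      refine mul_left_cancel₀ (a := sp (p : RR)) ?_ he
      rw [Ideal.zero_eq_bot, Ne, Ideal.span_singleton_eq_bot]
      exact_mod_cast hp.ne_zero
    · intro I hI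
      rw [Finset.mem_inter, Finset.mem_filter, Finset.mem_filter, mem_Tn] at hI
      obtain ⟨J, hJ⟩ := hcop.mul_dvd hI.1.2 hI.2.2
      have e2 : sp (p : RR) = sp g * sp (cj g) := by
        rw [Ideal.span_singleton_mul_span_singleton, hpg]
      refine ⟨J, ?_, by rw [e2]; exact hJ.symm⟩
      rw [mem_Tn]
      have h2 := hI.1.1
      rw [hJ, nI_mul, nI_mul, hNP, hNQ] at h2
      have h1 : (p * p) * nI J = (p * p) * p ^ k := by rw [h2]; ring
      exact Nat.eq_of_mul_eq_mul_left (Nat.mul_pos hp.pos hp.pos) h1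
    · intro J _
      rw [Mu.mul (φ := φ)]
  rw [h2] at h1
  rw [hbp]
  linear_combination h1


/-- the odd powers of the character -/
noncomputable def pe (e : ℕ) (I : Ideal RR) : ℂ := psi I ^ (2 * e + 1)

instance (e : ℕ) : Mu (pe e) where
  mul I J := by unfold pe; rw [psi_mul, mul_pow]
  one := by unfold pe; rw [psi_top, one_pow]
  zero := by
    have h : psi ⊥ = 0 := (psi_HC.zero _).2 (Or.inl rfl)
    unfold pe
    rw [h, zero_pow (by omega)]

lemma pe_seven (e : ℕ) {g : RR} (h : e7 g = 0) : pe e (sp g) = 0 := by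
  unfold pe
  rw [psi_sp, h, zero_mul, zero_pow (by omega)]

lemma bg_seven (e k : ℕ) : bg (pe e) (7 ^ (k + 1)) = 0 := by
  unfold bg
  apply Finset.sum_eq_zero
  intro I hI
  rw [mem_Tn] at hI
  obtain ⟨g, rfl⟩ := exists_gen I
  rw [nI_sp] at hI
  apply pe_seven
  rw [e7_eq_zero, ← r7_eq_zero]
  have h2 := r7_sq g
  have h3 : nR g = 7 ^ (k + 1) := by
    have := nR_nonneg g
    have h4 : ((nR g).natAbs : ℤ) = 7 ^ (k + 1) := by exact_mod_cast hI
    omega
  have h5 : ((7 ^ (k + 1) : ℤ) : ZMod 7) = 0 := by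
    push_cast
    have : (7 : ZMod 7) = 0 := by decide
    rw [this, zero_pow (by omega)]
  rw [h3, h5] at h2
  exact pow_eq_zero_iff two_ne_zero |>.1 h2

/-- the quadratic coefficient -/
noncomputable def ee (e p : ℕ) : ℂ := if p = 7 then 0 else (p : ℂ) ^ (2 * e + 1)

/-- the recursion at all the primes -/
theorem bg_rec (e : ℕ) {p : ℕ} (hp : p.Prime) (k : ℕ) :
    bg (pe e) (p ^ (k + 2)) = bg (pe e) p * bg (pe e) (p ^ (k + 1)) -
      ee e p * bg (pe e) (p ^ k) := by
  unfold ee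
  split_ifs with h7
  · subst h7
    have h1 := bg_seven e 0
    rw [zero_add, pow_one] at h1
    rw [bg_seven e (k + 1), h1]
    ring
  · rcases irr_or_norm hp with hirr | ⟨g, hg⟩
    · have hp2 : p ≠ 2 := by
        rintro rfl
        have h2 : (((2 : ℕ)) : RR) = aR * bR := by
          rw [aR_mul_bR]
          norm_cast
        rw [h2] at hirr
        rcases of_irreducible_mul hirr with h3 | h3
        · exact aR_nu h3
        · exact bR_nu h3
      obtain ⟨b1, b2⟩ := bg_inert (φ := pe e) hirr hp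
      obtain ⟨-, b3⟩ := ap_inert hp hp2 h7 (nonsq_of_irr hp hp2 hirr)
      have h5 : pe e (sp (p : RR)) = -((p : ℂ) ^ (2 * e + 1)) := by
        unfold pe
        rw [psi_sp, b3]
        push_cast
        rw [neg_one_mul, Odd.neg_pow ⟨e, rfl⟩]
      rw [b2, b1, h5]
      ring
    · obtain ⟨b1, b2⟩ := bg_split (φ := pe e) hp hg (sp_cj_ne hp h7 hg)
      have h5 : pe e (sp (p : RR)) = (p : ℂ) ^ (2 * e + 1) := by
        unfold pe
        rw [psi_sp, e7_split hp h7 hg, one_mul]
        push_cast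
        rfl
      rw [b2, h5]

/-- the sums of the powers of the roots of `X² - a X + p` -/
noncomputable def lu (a : ℂ) (p : ℕ) : ℕ → ℂ
  | 0 => 2
  | 1 => a
  | n + 2 => a * lu a p (n + 1) - p * lu a p n

lemma lu_eq {x y : ℂ} {p : ℕ} (h : x * y = p) (n : ℕ) : lu (x + y) p n = x ^ n + y ^ n := by
  induction n using Nat.twoStepInduction with
  | zero => simp [lu]; norm_num
  | one => simp [lu]
  | more n h1 h2 =>
    rw [lu, h1, h2, ← h]
    ring

lemma lu_zero (p e : ℕ) : lu 0 p (2 * e + 1) = 0 := by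
  induction e with
  | zero => simp [lu]
  | succ e ih =>
    rw [show 2 * (e + 1) + 1 = (2 * e + 1) + 2 by ring, lu, ih]
    ring

/-- the coefficients at the primes -/
theorem bg_prime (e : ℕ) {p : ℕ} (hp : p.Prime) : bg (pe e) p = lu (bc p) p (2 * e + 1) := by
  by_cases h7 : p = 7
  · subst h7
    have h1 := bg_seven e 0
    have h2 := bc_seven 0
    rw [zero_add, pow_one] at h1 h2
    rw [h1, h2, lu_zero]
  · rcases irr_or_norm hp with hirr | ⟨g, hg⟩
    · obtain ⟨b1, -⟩ := bg_inert (φ := pe e) hirr hp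
      obtain ⟨b2, -⟩ := bc_inert hirr hp
      rw [b1, b2, lu_zero]
    · obtain ⟨b1, -⟩ := bg_split (φ := pe e) hp hg (sp_cj_ne hp h7 hg)
      obtain ⟨b2, -⟩ := bc_split hp hg (sp_cj_ne hp h7 hg)
      rw [b1, b2, lu_eq]
      · rfl
      · rw [← psi_mul, Ideal.span_singleton_mul_span_singleton, mul_cj, hg]
        have h3 : (((p : ℤ) : RR)) = ((p : ℕ) : RR) := by push_cast; rfl
        rw [h3, psi_sp, e7_split hp h7 hg, one_mul]
        push_cast
        rfl

/-- the Euler product -/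
theorem prod_pe (e : ℕ) {f : ℕ → ℂ} (hf1 : f 1 = 1) (hfm : ∀ m n, f (m * n) = f m * f n) {z A : ℂ}
    (h : HasSum (fun I : Ideal RR => psi I ^ (2 * e + 1) * f (nI I) * (nm I : ℂ) ^ (-z)) A) :
    HasProd (fun p : Nat.Primes => (1 - lu (bc p) p (2 * e + 1) * (f p * ((p : ℕ) : ℂ) ^ (-z)) +
      ee e p * (f p * ((p : ℕ) : ℂ) ^ (-z)) ^ 2)⁻¹) A := by
  have hpow : ∀ p k, f (p ^ k) = f p ^ k := by
    intro p k
    induction k with
    | zero => rw [pow_zero, pow_zero, hf1]
    | succ k ih => rw [pow_succ, hfm, ih, pow_succ]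
  have hser : HasSum (fun n : ℕ => f n * bg (pe e) n * (n : ℂ) ^ (-z)) A := by
    have h1 := hasSum_fib h
    convert h1 using 2 with n
    unfold bg
    rw [Finset.mul_sum, Finset.sum_mul]
    refine Finset.sum_congr rfl fun I hI => ?_
    rw [mem_Tn] at hI
    rw [nm_nI, hI]
    unfold pe
    push_cast
    ring
  have key := Pool.Agent.W164.RC.ep_general (fun n => f n * bg (pe e) n)
    (fun p => f p ^ 2 * ee e p) (by rw [bg_zero, mul_zero])
    (by rw [bg_one, hf1, one_mul])
    (by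
      intro m n hmn
      rw [bg_mul hmn, hfm]
      ring)
    (by
      intro p hp k
      rw [bg_rec e hp, hpow, hpow, hpow]
      ring) z A hser
  convert key using 2 with p
  rw [← bg_prime e p.2]
  ring

end Pool.Agent.Q274.BKL.Ep
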