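import Pool.Agent.Q274.BKL.As
import Pool.Agent.Q203.BKL.CEN
import Pool.Agent.Q203.BKL.ELT
import Pool.Agent.Q274.BKC.Tw

/-!
# Central values of all even weights: the values of the L-functions
-/

set_option autoImplicit false

open Filter
open scoped Topology PeriodPair

namespace Pool.Agent.Q274.BKL

open H667R3 Pool.Agent.TH936.CM Pool.Agent.TH936.PU Pool.Agent.TH936.CW
open Pool.Agent.W192.HK (sp nm)
open Pool.Agent.Y698
open Pool.Agent.Y698.SG

open Classical in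
/-- the primes of `D` which are inert in `ℚ(√-7)` -/
noncomputable def IP (D : ℕ) : Finset ℕ :=
  D.primeFactors.filter fun p => ¬ IsSquare (-((7 : ℕ) : ZMod p))

open Classical in
lemma IP_union (D : ℕ) : IP D ∪ BKC.SP 7 D = D.primeFactors := by
  ext p
  unfold IP BKC.SP
  rw [Finset.mem_union, Finset.mem_filter, Finset.mem_filter]
  tauto

open Classical in
lemma IP_disj (D : ℕ) : Disjoint (IP D) (BKC.SP 7 D) := by
  rw [Finset.disjoint_left]
  intro p h1 h2
  unfold IP at h1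
  unfold BKC.SP at h2
  rw [Finset.mem_filter] at h1 h2
  exact h1.2 h2.2

lemma IP_inq {D : ℕ} (hD : BKC.Cl 7 D) : ∀ r ∈ IP D, Inq r := by
  classical
  intro r hr
  unfold IP at hr
  rw [Finset.mem_filter] at hr
  have h1 := Nat.prime_of_mem_primeFactors hr.1
  exact ⟨h1, (hD.one r h1 (Nat.dvd_of_mem_primeFactors hr.1)).1, by simpa using hr.2⟩

lemma SP_spl {D : ℕ} (hD : BKC.Cl 7 D) : ∀ r ∈ BKC.SP 7 D, Spl r := by
  classical
  intro r hr
  unfold BKC.SP at hr
  rw [Finset.mem_filter] at hr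
  have h1 := Nat.prime_of_mem_primeFactors hr.1
  exact ⟨h1, (hD.one r h1 (Nat.dvd_of_mem_primeFactors hr.1)).1, by simpa using hr.2⟩

open Classical in
/-- the two matrices -/
lemma mat_eq (D : ℕ) : mat (IP D) (BKC.SP 7 D) = BKC.R 7 D := by
  ext i j
  unfold mat BKC.R
  rw [Matrix.of_apply, Matrix.of_apply]
  have hnr : ∀ p m : ℕ, nq p m = BKC.nr p m := fun p m => rfl
  by_cases hij : i = j
  · rw [if_pos hij, if_pos hij]
    have h4 : n4 (i : ℕ) = BKC.n4 7 (i : ℕ) := by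
      unfold n4 BKC.n4
      congr 1
    have h5 : D.primeFactors.erase (i : ℕ) = IP D ∪ (BKC.SP 7 D).erase (i : ℕ) := by
      have hi : (i : ℕ) ∉ IP D := fun h => Finset.disjoint_left.1 (IP_disj D) h i.2
      rw [← IP_union D, Finset.erase_union_distrib, Finset.erase_eq_of_notMem hi]
    rw [h5, Finset.sum_union, h4]
    · simp only [hnr]
      abel
    · exact (IP_disj D).mono_right (Finset.erase_subset _ _)
  · rw [if_neg hij, if_neg hij]
    rfl

/-- the determinant -/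
lemma det_ne {D : ℕ} (h : BKC.corank 7 D = 0) : (mat (IP D) (BKC.SP 7 D)).det ≠ 0 := by
  classical
  rw [mat_eq]
  have h1 : LinearMap.ker (Matrix.mulVecLin (BKC.R 7 D)) = ⊥ := Submodule.finrank_eq_zero.1 h
  intro h0
  obtain ⟨v, hv, hv0⟩ := Matrix.exists_mulVec_eq_zero_iff.2 h0
  apply hv
  have h2 : v ∈ LinearMap.ker (Matrix.mulVecLin (BKC.R 7 D)) := by
    rw [LinearMap.mem_ker]
    exact hv0
  rw [h1, Submodule.mem_bot] at h2
  exact h2

/-- the symbol of `2` -/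
lemma qch_two {D : ℕ} (hD : BKC.Cl 7 D) : ∏ r ∈ IP D ∪ BKC.SP 7 D, qch r 2 = 1 := by
  classical
  rw [IP_union]
  have h1 : D % 8 = 1 := by
    obtain ⟨k, hk⟩ := hD.cong
    omega
  have h2 : jacobiSym 2 D = 1 := by
    rw [jacobiSym.at_two (Nat.odd_iff.2 (by omega)), ZMod.χ₈_nat_mod_eight, h1]
    rfl
  have h3 : jacobiSym 2 D = ∏ r ∈ D.primeFactors, jacobiSym 2 r := by
    have key : ∀ S : Finset ℕ, (∀ p ∈ S, p.Prime) → jacobiSym 2 (∏ p ∈ S, p) =
        ∏ r ∈ S, jacobiSym 2 r := by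
      intro S
      induction S using Finset.induction_on with
      | empty => intro _; simp
      | insert a S ha ih =>
        intro hS
        have ha0 : NeZero a := ⟨(hS a (Finset.mem_insert_self _ _)).ne_zero⟩
        have hS0 : NeZero (∏ p ∈ S, p) := ⟨Finset.prod_ne_zero_iff.2 fun p hp =>
          (hS p (Finset.mem_insert_of_mem hp)).ne_zero⟩
        rw [Finset.prod_insert ha, Finset.prod_insert ha, jacobiSym.mul_right,
          ih fun p hp => hS p (Finset.mem_insert_of_mem hp)]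
    conv_lhs => rw [← Nat.prod_primeFactors_of_squarefree hD.sqf]
    exact key _ fun p hp => Nat.prime_of_mem_primeFactors hp
  have h4 : ((∏ r ∈ D.primeFactors, jacobiSym 2 r : ℤ) : ℂ) = 1 := by
    rw [← h3, h2, Int.cast_one]
  rw [Int.cast_prod] at h4
  exact h4

/-- **the central values of all even weights** -/
theorem central (hCK : S_CK) {D : ℕ} (hD : BKC.Cl 7 D) (h0 : BKC.corank 7 D = 0) {e : ℕ}
    (he : Even e) : ∃ F : ℂ → ℂ, Differentiable ℂ F ∧
    (∀ z : ℂ, (e : ℝ) + 3 / 2 < z.re → HasSum (lt D e z) (2 * F z)) ∧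
    F ((e + 1 : ℕ) : ℂ) ≠ 0 := by
  classical
  obtain ⟨F, g1, g2, g3⟩ := Pool.Agent.Q203.BKL.t_CEN Pool.Agent.Q111.BKL.P.t_PAR
    Pool.Agent.Q257.BKL.t_DIST (IP D) (BKC.SP 7 D) (IP_inq hD) (SP_spl hD) e
  refine ⟨F, g1, fun z hz => ?_, fun h => ?_⟩
  · have h1 := g2 z (by push_cast; linarith)
    have h2 := Pool.Agent.Q203.BKL.t_ELT (IP D) (BKC.SP 7 D) (IP_inq hD) (SP_spl hD) e z _ h1
    have h3 : ∏ r ∈ IP D ∪ BKC.SP 7 D, r = D := by
      rw [IP_union]
      exact Nat.prod_primeFactors_of_squarefree hD.sqf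
    rwa [h3] at h2
  · have := fin_quot fR_ne
    let _ : Fintype (RR ⧸ sp fR) := Fintype.ofFinite _
    obtain ⟨L, Ω, hL⟩ := exists_LD
    obtain ⟨q, hq⟩ := Pool.Agent.Q111.BKL.PQ.t_PQ Pool.Agent.Q187.BKL.t_ZB L Ω hL
    exact bw_ne hCK (IP_inq hD) (SP_spl hD) (det_ne h0) (qch_two hD) hq he ((g3 L Ω q hq).1 h)

end Pool.Agent.Q274.BKL
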