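import Pool.Agent.TH936.CW.Cen
import Pool.Agent.Y698.SG.Inp

/-!
# Central values of all even weights: definitions and statements of the parts

`E : y² + x y = x³ - x² - 2 x - 1`, complex multiplication by `RR = ℤ[al]`, `al = (1 + √-7) / 2`,
`bl = 1 - al`, `al * bl = 2`, period lattice `L = Ω RR`; `v` is a valuation of `ℂ` with `v al < 1`.
`Mk n z = n! e*_{n,n+1}(z) / A^n` are the normalised numbers of Eisenstein and Kronecker.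
The aim of this part: for `z` of odd order and `n ≥ 2` even, `Mk n z = N1 (z / bl)` modulo `4`.
-/

set_option autoImplicit false
set_option linter.unusedVariables false

open Filter
open scoped Topology PeriodPair

namespace Pool.Agent.Q274.BKL

open H667R3 Pool.Agent.TH936.CM
open Pool.Agent.W192.HK (sp nm)
open Pool.Agent.TH936.CW (ek evz Pp Hh)
open Pool.Agent.Y698 (RR aR bR fR al bl tA tB LD e7 nR nI Inq qch)
open Pool.Agent.Y698.SG (Spl sy PD Fam hc gd mc mr Bg)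

/-! ### Functions -/

/-- the lattice of `y² + x y = x³ - x² - 2 x - 1` with its quasi-periods -/
structure Dat (L : PeriodPair) (Ω q : ℂ) : Prop where
  ld : LD L Ω
  per : ∀ l ∈ L.lattice, eta L l = 1 / 4 * l + q * (starRingEnd ℂ) l

/-- a point of odd order -/
structure Oz (L : PeriodPair) (z : ℂ) : Prop where
  ne : z ∉ L.lattice
  tor : ∃ N : ℕ, Odd N ∧ (N : ℂ) * z ∈ L.lattice

/-- the coordinate `x` -/
noncomputable def xw (L : PeriodPair) (z : ℂ) : ℂ := ℘[L] z + 1 / 4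

/-- the coordinate `y` -/
noncomputable def yw (L : PeriodPair) (z : ℂ) : ℂ := (℘'[L] z - xw L z) / 2

/-- the function `ζ(z) - z / 4 - q u + 1 / 2`; for `u = conj z` it is periodic -/
noncomputable def Sw (L : PeriodPair) (q u z : ℂ) : ℂ := zeta L z - 1 / 4 * z - q * u + 1 / 2

/-- half of `S² - S - x + 1` -/
noncomputable def kw (L : PeriodPair) (q u z : ℂ) : ℂ :=
  (Sw L q u z ^ 2 - Sw L q u z - xw L z + 1) / 2

/-- the slope -/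
noncomputable def lw (L : PeriodPair) (z w : ℂ) : ℂ := (yw L z - yw L w) / (xw L z - xw L w)

/-- the parameter at the origin -/
noncomputable def Tw (L : PeriodPair) (w : ℂ) : ℂ := -(xw L w / yw L w)

/-- the function of Kronecker, with `u` for the conjugate of `z` -/
noncomputable def Kw (L : PeriodPair) (q u z w : ℂ) : ℂ :=
  Hh L (1 / 4) q u (z + w) / (Hh L (1 / 4) q u z * Hh L (1 / 4) q 0 w)

/-- the numbers of Eisenstein and Kronecker -/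
noncomputable def Mk (L : PeriodPair) (q : ℂ) (n : ℕ) (z : ℂ) : ℂ :=
  n.factorial * ek L (1 / 4) q n z

/-- the four terms of weight zero -/
noncomputable def N1 (L : PeriodPair) (q z : ℂ) : ℂ :=
  Mk L q 0 (bl * z) - bl⁻¹ * Mk L q 0 (2 * z) - bl⁻¹ * Mk L q 0 z + bl⁻¹ ^ 2 * Mk L q 0 (al * z)

/-! ### Jobs: elliptic functions -/

/-- BKL-1 (ZB). -/
def S_ZB : Prop := ∀ (L : PeriodPair) (Ω : ℂ), LD L Ω →
  (∀ z : ℂ, bl * z ∉ L.lattice → bl * zeta L (bl * z) =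
    2 * zeta L z + ℘'[L] z / (2 * (℘[L] z - ℘[L] (tB Ω))) - (3 + al) / 4 * z) ∧
  (∀ z : ℂ, al * z ∉ L.lattice → al * zeta L (al * z) =
    2 * zeta L z + ℘'[L] z / (2 * (℘[L] z - ℘[L] (tA Ω))) + (al - 4) / 4 * z)

/-- BKL-2 (PQ). -/
def S_PQ : Prop := S_ZB → ∀ (L : PeriodPair) (Ω : ℂ), LD L Ω → ∃ q : ℂ, Dat L Ω q

/-- BKL-3 (PAR). -/
def S_PAR : Prop := ∀ (L : PeriodPair) (p q : ℂ) (n : ℕ) (z : ℂ), z ∉ L.lattice →
  ek L p q n (-z) = -ek L p q n z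

/-- BKL-4 (DIST). -/
def S_DIST : Prop := S_PAR → ∀ (L : PeriodPair) (Ω p q : ℂ), IsLat L RR Ω →
  (∀ l ∈ L.lattice, eta L l = p * l + q * (starRingEnd ℂ) l) → ∀ (n : ℕ) (c : RR), c ≠ 0 →
  ∀ [Fintype (RR ⧸ sp c)] (z : ℂ), (c : ℂ) * z ∉ L.lattice →
    ∑ t : RR ⧸ sp c, ek L p q n (z + Ω * t.out / c) =
      (c : ℂ) ^ (n + 1) * ((starRingEnd ℂ) (c : ℂ) ^ n)⁻¹ * ek L p q n (c * z)

/-- BKL-5 (BL). -/
def S_BL : Prop := S_ZB → ∀ (L : PeriodPair) (Ω q : ℂ), LD L Ω → ∀ u z : ℂ, bl * z ∉ L.lattice →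
  bl * Sw L q (al * u) (bl * z) = 2 * Sw L q u z + lw L z (tB Ω) - bl⁻¹ ∧
  xw L (bl * z) = bl⁻¹ ^ 2 * (lw L z (tB Ω) ^ 2 + lw L z (tB Ω) + (2 * bl - 3) * bl⁻¹ ^ 2) ∧
  yw L (bl * z) = bl⁻¹ ^ 3 * (2 * lw L z (tB Ω) + 1) * xw L z - bl⁻¹ ^ 3 * lw L z (tB Ω) ^ 3 -
    bl⁻¹ ^ 4 * (2 * bl - 1) * (lw L z (tB Ω) ^ 2 + lw L z (tB Ω)) +
    al * bl⁻¹ ^ 5 * lw L z (tB Ω) + al * bl⁻¹ ^ 6 * (2 * bl - 3) ∧
  kw L q (al * u) (bl * z) = bl⁻¹ ^ 2 * (2 * Sw L q u z ^ 2 + 2 * Sw L q u z * lw L z (tB Ω) -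
    Sw L q u z - lw L z (tB Ω) + al ^ 2 * bl⁻¹) ∧
  xw L (tB Ω) = al * bl⁻¹ ^ 2 ∧ yw L (tB Ω) = -bl⁻¹ ^ 3

/-- BKL-6 (AL). -/
def S_AL : Prop := S_ZB → ∀ (L : PeriodPair) (Ω q : ℂ), LD L Ω → ∀ u z : ℂ,
  (al * z ∉ L.lattice → al ^ 2 * xw L z - bl ≠ 0 ∧ Sw L q (bl * u) (al * z) =
    bl * Sw L q u z + (al * yw L z - xw L z - 1) / (al ^ 2 * xw L z - bl)) ∧
  (2 * z ∉ L.lattice → 2 * yw L z + xw L z ≠ 0 ∧ Sw L q (2 * u) (2 * z) = 2 * Sw L q u z +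
    (3 * xw L z ^ 2 - 2 * xw L z - 2 - yw L z) / (2 * yw L z + xw L z))

/-- BKL-7 (ADD). -/
def S_ADD : Prop := ∀ (L : PeriodPair) (Ω q : ℂ), LD L Ω → ∀ z w : ℂ, z ∉ L.lattice →
  w ∉ L.lattice → z + w ∉ L.lattice → z - w ∉ L.lattice →
  (∀ u u' : ℂ, Sw L q (u + u') (z + w) = Sw L q u z + Sw L q u' w + lw L z w) ∧
  xw L (z + w) = lw L z w ^ 2 + lw L z w + 1 - xw L z - xw L w ∧
  xw L z - xw L w ≠ 0 ∧
  HasDerivAt (fun t => lw L t w) (2 * xw L z + xw L w - lw L z w ^ 2 - lw L z w - 1) z ∧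
  HasDerivAt (fun t => lw L z t) (2 * xw L w + xw L z - lw L z w ^ 2 - lw L z w - 1) w

/-- BKL-8 (DER). -/
def S_DER : Prop := ∀ (L : PeriodPair) (Ω q : ℂ), LD L Ω → ∀ z : ℂ, z ∉ L.lattice →
  yw L z ^ 2 + xw L z * yw L z = xw L z ^ 3 - xw L z ^ 2 - 2 * xw L z - 1 ∧
  HasDerivAt (xw L) (2 * yw L z + xw L z) z ∧
  HasDerivAt (yw L) (3 * xw L z ^ 2 - 2 * xw L z - 2 - yw L z) z ∧
  ∀ u : ℂ, HasDerivAt (Sw L q u) (-xw L z) z ∧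
    HasDerivAt (kw L q u) (-(Sw L q u z * xw L z) - yw L z) z

/-- BKL-9 (KD). -/
def S_KD : Prop := S_ADD → ∀ (L : PeriodPair) (Ω q : ℂ), LD L Ω → ∀ u z w : ℂ, z ∉ L.lattice →
  w ∉ L.lattice → z + w ∉ L.lattice → z - w ∉ L.lattice →
  HasDerivAt (fun t => Kw L q u t w) ((Sw L q 0 w + lw L z w) * Kw L q u z w) z ∧
  HasDerivAt (fun t => Kw L q u z t) ((Sw L q u z + lw L z w) * Kw L q u z w) w

/-- BKL-10 (KP). -/
def S_KP : Prop := S_ADD → ∀ (L : PeriodPair) (Ω q : ℂ), Dat L Ω q →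
  (∀ u u' z z' w : ℂ, z ∉ L.lattice → z' ∉ L.lattice → w ∉ L.lattice → z + z' ∉ L.lattice →
    z + w ∉ L.lattice → z' + w ∉ L.lattice → z + z' + w ∉ L.lattice → z + z' - w ∉ L.lattice →
    Kw L q u z w * Kw L q u' z' w =
      (Sw L q u z + Sw L q u' z' - Sw L q (u + u') (z + z') - 1 - lw L (z + z') w) *
        Kw L q (u + u') (z + z') w) ∧
  (∀ u z w : ℂ, z ∉ L.lattice → w ∉ L.lattice →
    Kw L q u z w * Kw L q (-u) (-z) w = xw L w - xw L z) ∧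
  (∀ u z w l : ℂ, z ∉ L.lattice → w ∉ L.lattice → l ∈ L.lattice →
    Kw L q (u + (starRingEnd ℂ) l) (z + l) w = Kw L q u z w)

/-- BKL-11 (COMM). -/
def S_COMM : Prop := ∀ (L : PeriodPair) (q u z w : ℂ) (a b : ℕ), z ∉ L.lattice → w ∉ L.lattice →
  iteratedDeriv a (fun w' => iteratedDeriv b (fun z' => Kw L q u z' w') z) w =
    iteratedDeriv b (fun z' => iteratedDeriv a (fun w' => Kw L q u z' w') w) z

/-- BKL-12 (COEF). -/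
def S_COEF : Prop := ∀ (L : PeriodPair) (q u z : ℂ) (n : ℕ), z ∉ L.lattice → 1 ≤ n →
  Tendsto (fun w => iteratedDeriv n (fun w' => iteratedDeriv n (fun z' => Kw L q u z' w') z) w)
    (𝓝[≠] 0) (𝓝 (n.factorial * evz L (1 / 4) q u z (Pp L (1 / 4) n)))

/-- BKL-13 (M2). -/
def S_M2 : Prop := ∀ (L : PeriodPair) (Ω q : ℂ), LD L Ω → ∀ z : ℂ, z ∉ L.lattice →
  Mk L q 0 z = Sw L q ((starRingEnd ℂ) z) z - 1 / 2 ∧
  Mk L q 2 z = xw L z ^ 2 - 2 * xw L z * yw L z + yw L z - xw L z -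
    4 * Sw L q ((starRingEnd ℂ) z) z * xw L z ^ 2 + 4 * Sw L q ((starRingEnd ℂ) z) z * xw L z +
    4 * Sw L q ((starRingEnd ℂ) z) z - 2 - 2 * Sw L q ((starRingEnd ℂ) z) z ^ 2 * yw L z +
    2 * Sw L q ((starRingEnd ℂ) z) z * yw L z - Sw L q ((starRingEnd ℂ) z) z ^ 2 * xw L z

/-! ### Jobs: Laurent series in a parameter with integral coefficients -/

/-- a parameter at the origin -/
structure Uni (T : ℂ → ℂ) : Prop where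
  mer : MeromorphicAt T 0
  lim : Tendsto (fun w => T w / w) (𝓝[≠] 0) (𝓝 1)

/-- `f` is near the origin a Laurent series in `T` with coefficients of value at most one -/
structure IR {Γ : Type} [LinearOrderedCommGroupWithZero Γ] (v : Valuation ℂ Γ) (T f : ℂ → ℂ) :
    Prop where
  mer : MeromorphicAt f 0
  app : ∀ N : ℤ, ∃ (a : ℤ) (c : ℤ → ℂ), (∀ k, v (c k) ≤ 1) ∧ (N : WithTop ℤ) ≤
    meromorphicOrderAt (fun w => f w - ∑ k ∈ Finset.Ico a N, c k * T w ^ k) 0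

/-- BKL-14 (IR1). -/
def S_IR1 : Prop := ∀ (Γ : Type) [LinearOrderedCommGroupWithZero Γ] (v : Valuation ℂ Γ)
  (T : ℂ → ℂ), Uni T → (∀ c : ℂ, v c ≤ 1 → IR v T (fun _ => c)) ∧ (∀ k : ℤ, IR v T (fun w => T w ^ k)) ∧
  (∀ f g : ℂ → ℂ, IR v T f → IR v T g → IR v T (fun w => f w + g w)) ∧
  (∀ f g : ℂ → ℂ, IR v T f → IR v T g → IR v T (fun w => f w * g w)) ∧
  (∀ f g : ℂ → ℂ, f =ᶠ[𝓝[≠] 0] g → IR v T f → IR v T g)

/-- BKL-15 (IR2). -/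
def S_IR2 : Prop := ∀ (Γ : Type) [LinearOrderedCommGroupWithZero Γ] (v : Valuation ℂ Γ)
  (T f : ℂ → ℂ), Uni T → IR v T f → ∀ (m : ℤ) (c : ℂ),
  Tendsto (fun w => f w * w ^ m) (𝓝[≠] 0) (𝓝 c) → v c ≤ 1

/-- BKL-16 (IR3). -/
def S_IR3 : Prop := S_IR1 → S_IR2 → ∀ (Γ : Type) [LinearOrderedCommGroupWithZero Γ]
  (v : Valuation ℂ Γ) (T f : ℂ → ℂ), Uni T →
  (∀ (m : ℤ) (c : ℂ), IR v T f → Tendsto (fun w => f w * w ^ m) (𝓝[≠] 0) (𝓝 c) → v c = 1 →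
    IR v T (fun w => (f w)⁻¹)) ∧
  (∀ (m : ℤ) (N : ℕ), MeromorphicAt f 0 → Tendsto (fun w => f w * w ^ m) (𝓝[≠] 0) (𝓝 1) →
    0 < N → v (N : ℂ) = 1 → IR v T (fun w => f w ^ N) → IR v T f)

/-- BKL-17 (IR4). -/
def S_IR4 : Prop := S_IR1 → ∀ (Γ : Type) [LinearOrderedCommGroupWithZero Γ]
  (v : Valuation ℂ Γ) (T f : ℂ → ℂ), Uni T → IR v T (deriv T) → IR v T f → IR v T (deriv f)

/-- BKL-18 (IR5). -/
def S_IR5 : Prop := S_IR1 → S_IR2 → S_IR3 → ∀ (Γ : Type) [LinearOrderedCommGroupWithZero Γ]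
  (v : Valuation ℂ Γ) (T f : ℂ → ℂ) (b : ℂ), Uni T → v b = 1 → IR v T (fun w => T (b * w)) →
  (IR v T f → IR v T (fun w => f (b * w))) ∧
  ∀ a c : ℂ, MeromorphicAt f 0 → v a = 1 → v c < 1 →
    IR v T (fun w => a * f (b * w) + c * f w) → IR v T f

/-- BKL-19 (XY). -/
def S_XY : Prop := S_IR1 → S_IR2 → S_IR3 → ∀ (L : PeriodPair) (Ω : ℂ), LD L Ω → Uni (Tw L) ∧
  ∀ (Γ : Type) [LinearOrderedCommGroupWithZero Γ] (v : Valuation ℂ Γ),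
    IR v (Tw L) (xw L) ∧ IR v (Tw L) (yw L) ∧ IR v (Tw L) (deriv (Tw L))

/-! ### Jobs: integrality at the points of odd order -/

/-- BKL-20 (F1). -/
def S_F1 : Prop := ∀ (L : PeriodPair) (Ω : ℂ), LD L Ω → ∀ (Γ : Type)
  [LinearOrderedCommGroupWithZero Γ] (v : Valuation ℂ Γ), v al < 1 → ∀ z : ℂ, Oz L z →
  v (xw L z) = 1 ∧ v (yw L z) ≤ 1

/-- BKL-21 (F2). -/
def S_F2 : Prop := S_ZB → S_BL → S_F1 → ∀ (L : PeriodPair) (Ω q : ℂ), Dat L Ω q → ∀ (Γ : Type)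
  [LinearOrderedCommGroupWithZero Γ] (v : Valuation ℂ Γ), v al < 1 → ∀ z : ℂ, Oz L z →
  v (Sw L q ((starRingEnd ℂ) z) z) ≤ 1 ∧ v (kw L q ((starRingEnd ℂ) z) z) ≤ 1

/-- BKL-22 (IRS). -/
def S_IRS : Prop := S_ZB → S_BL → S_IR1 → S_IR2 → S_IR3 → S_IR5 → S_XY →
  ∀ (L : PeriodPair) (Ω q : ℂ), Dat L Ω q → ∀ (Γ : Type)
  [LinearOrderedCommGroupWithZero Γ] (v : Valuation ℂ Γ), v al < 1 →
  IR v (Tw L) (Sw L q 0) ∧ IR v (Tw L) (kw L q 0) ∧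
  ∀ z : ℂ, z ∉ L.lattice → v (xw L z) ≤ 1 → v (yw L z) ≤ 1 → IR v (Tw L) (fun w => lw L z w)

/-- BKL-23 (IRK). -/
def S_IRK : Prop := S_ADD → S_KP → S_IR1 → S_IR3 → S_XY → S_F1 → S_ZB → S_BL → S_F2 → S_IR2 →
  S_IR5 → S_IRS → ∀ (L : PeriodPair) (Ω q : ℂ), Dat L Ω q → ∀ (Γ : Type)
  [LinearOrderedCommGroupWithZero Γ] (v : Valuation ℂ Γ), v al < 1 → ∀ z : ℂ, Oz L z →
  IR v (Tw L) (fun w => Kw L q ((starRingEnd ℂ) z) z w)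

/-! ### Jobs: the congruences -/

/-- the ring of polynomials in `S_z, x_z, y_z, k_z, λ, S_w, x_w, y_w, k_w` -/
abbrev QQ : Type := MvPolynomial (Fin 9) ℤ

open MvPolynomial in
/-- the derivation with respect to `z` -/
noncomputable def dz : Derivation ℤ QQ QQ := mkDerivation ℤ ![-X 1, 2 * X 2 + X 1,
  3 * X 1 ^ 2 - 2 * X 1 - 2 - X 2, -(X 0 * X 1) - X 2, 2 * X 1 + X 6 - X 4 ^ 2 - X 4 - 1,
  0, 0, 0, 0]

open MvPolynomial in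
/-- the derivation with respect to `w` -/
noncomputable def dw : Derivation ℤ QQ QQ := mkDerivation ℤ ![0, 0, 0, 0,
  2 * X 6 + X 1 - X 4 ^ 2 - X 4 - 1, -X 6, 2 * X 7 + X 6, 3 * X 6 ^ 2 - 2 * X 6 - 2 - X 7,
  -(X 5 * X 6) - X 7]

open MvPolynomial in
/-- the derivative with respect to `z` of a multiple of the function of Kronecker -/
noncomputable def nz (P : QQ) : QQ := dz P + (X 5 + X 4) * P

open MvPolynomial in
/-- the derivative with respect to `w` of a multiple of the function of Kronecker -/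
noncomputable def nw (P : QQ) : QQ := dw P + (X 0 + X 4) * P

open MvPolynomial in
/-- the relation for `k_z` -/
noncomputable def rz : QQ := 2 * X 3 - X 0 ^ 2 + X 0 + X 1 - 1

open MvPolynomial in
/-- the relation for `k_w` -/
noncomputable def rw' : QQ := 2 * X 8 - X 5 ^ 2 + X 5 + X 6 - 1

/-- the value of a polynomial -/
noncomputable def Ew (L : PeriodPair) (q u z w : ℂ) (P : QQ) : ℂ :=
  MvPolynomial.aeval ![Sw L q u z, xw L z, yw L z, kw L q u z, lw L z w, Sw L q 0 w, xw L w,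
    yw L w, kw L q 0 w] P

/-- BKL-24 (ALG). -/
def S_ALG : Prop :=
  (∀ n : ℕ, Even n → 2 ≤ n → ∃ A B : QQ, nz^[n] 1 = nz^[2] 1 + 4 * A + rw' * B) ∧
  (∀ n : ℕ, Even n → 2 ≤ n → ∃ A B : QQ, nw^[n] 1 = nw^[2] 1 + 4 * A + rz * B)

/-- BKL-25 (EV). -/
def S_EV : Prop := S_ADD → S_DER → S_KD → ∀ (L : PeriodPair) (Ω q : ℂ), LD L Ω →
  ∀ (u z w : ℂ), z ∉ L.lattice → w ∉ L.lattice → z + w ∉ L.lattice → z - w ∉ L.lattice →
  (∀ P : QQ, HasDerivAt (fun t => Ew L q u t w P * Kw L q u t w)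
    (Ew L q u z w (nz P) * Kw L q u z w) z ∧
    HasDerivAt (fun t => Ew L q u z t P * Kw L q u z t) (Ew L q u z w (nw P) * Kw L q u z w) w) ∧
  (∀ (P : QQ) (n : ℕ), iteratedDeriv n (fun t => Ew L q u t w P * Kw L q u t w) z =
    Ew L q u z w (nz^[n] P) * Kw L q u z w) ∧
  (∀ (P : QQ) (n : ℕ), iteratedDeriv n (fun t => Ew L q u z t P * Kw L q u z t) w =
    Ew L q u z w (nw^[n] P) * Kw L q u z w)

/-- BKL-26 (CMP). -/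
def S_CMP : Prop := S_EV → S_COMM → S_COEF → S_ALG → S_ADD → S_DER → S_KD → S_IR1 → S_IR2 → S_IR4 →
  S_XY → S_F1 → S_F2 → S_IRS → S_IRK → S_ZB → S_BL → S_IR3 → S_IR5 → S_KP →
  ∀ (L : PeriodPair) (Ω q : ℂ), Dat L Ω q → ∀ (Γ : Type) [LinearOrderedCommGroupWithZero Γ]
  (v : Valuation ℂ Γ), v al < 1 → ∀ (z : ℂ) (n : ℕ), Oz L z → Even n → 2 ≤ n →
  v (Mk L q n z - Mk L q 2 z) ≤ v 4

/-- the certificate for K3: with `B = bl⁻¹`, `d1 = x - al B²`, `d2 = 2 y + x`, `d3 = al² x - bl` and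
`λ = (y + B³) / d1`, `τ = (3 x² - 2 x - 2 - y) / d2`, `σ = (al y - x - 1) / d3`, `x1`, `y1` the
coordinates of `bl * z` as in `S_BL`, one has on the curve
`x1² - x1 - y1 - 2 - B² (λ - B)² x1 - (B (λ - τ) + B² (σ - 1) - al B³) = 4 K3G / (d1⁴ d2 d3)` -/
noncomputable def K3G (x y : ℂ) : ℂ :=
  (10 + -7 * al) * bl⁻¹ ^ 11 * x ^ 0 * y ^ 0 +
  (-2 + -1 * al) * bl⁻¹ ^ 8 * x ^ 0 * y ^ 1 +
  (58 + -47 * al) * bl⁻¹ ^ 11 * x ^ 1 * y ^ 0 +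
  (-26 + 21 * al) * bl⁻¹ ^ 9 * x ^ 1 * y ^ 1 +
  (-446 + 137 * al) * bl⁻¹ ^ 13 * x ^ 2 * y ^ 0 +
  (-60 + 73 * al) * bl⁻¹ ^ 9 * x ^ 2 * y ^ 1 +
  (22 + 125 * al) * bl⁻¹ ^ 9 * x ^ 3 * y ^ 0 +
  (173 + 64 * al) * bl⁻¹ ^ 10 * x ^ 3 * y ^ 1 +
  (320 + -71 * al) * bl⁻¹ ^ 10 * x ^ 4 * y ^ 0 +
  (-95 + 30 * al) * bl⁻¹ ^ 8 * x ^ 4 * y ^ 1 +
  (217 + -90 * al) * bl⁻¹ ^ 10 * x ^ 5 * y ^ 0 +
  (13 + -10 * al) * bl⁻¹ ^ 6 * x ^ 5 * y ^ 1 +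
  (0 + 23 * al) * bl⁻¹ ^ 8 * x ^ 6 * y ^ 0 +
  (-2 + 1 * al) * bl⁻¹ ^ 4 * x ^ 6 * y ^ 1 +
  (-4 + 7 * al) * bl⁻¹ ^ 6 * x ^ 7 * y ^ 0 +
  (-2 + -1 * al) * bl⁻¹ ^ 4 * x ^ 8 * y ^ 0

/-- BKL-27 (K3). -/
def S_K3 : Prop := S_ZB → S_BL → S_AL → S_M2 → S_DER → S_F1 → S_F2 →
  ∀ (L : PeriodPair) (Ω q : ℂ), Dat L Ω q → ∀ (Γ : Type) [LinearOrderedCommGroupWithZero Γ]
  (v : Valuation ℂ Γ), v al < 1 → ∀ z : ℂ, Oz L z →
  v (Mk L q 2 (bl * z) - N1 L q z) ≤ v 4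

end Pool.Agent.Q274.BKL
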