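import Pool.Agent.Q274.BKL.Stm

/-!
# Central values of all even weights: the recursion over the divisors and the values of L-functions
-/

set_option autoImplicit false
set_option linter.unusedVariables false

open Filter
open scoped Topology PeriodPair

namespace Pool.Agent.Q274.BKL

open H667R3 Pool.Agent.TH936.CM
open Pool.Agent.W192.HK (sp nm)
open Pool.Agent.Y698 (RR aR bR fR al bl LD e7 nR nI Inq qch psi GG)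
open Pool.Agent.Y698.SG (Spl sy PD Fam hc gd mc mr Bg Gd Pe)

/-- the sum over the points of order `√-7` -/
noncomputable def Gw [Fintype (RR ⧸ sp fR)] (Ω : ℂ) (E : ℂ → ℂ) (u : ℂ) : ℂ :=
  ∑ y : RR ⧸ sp fR, e7 y.out * E (Ω * y.out / fR + u)

/-- the weighted sum -/
noncomputable def Bw [Fintype (RR ⧸ sp fR)] (Ω : ℂ) (E : ℂ → ℂ) (n : RR) (φ : RR → ℂ) : ℂ :=
  ∑ᶠ x : RR ⧸ sp n, φ x.out * Gw Ω E (Ω * x.out / (n : ℂ))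

/-- BKL-28 (WSUB). -/
def S_WSUB : Prop := S_PAR → S_DIST → ∀ (L : PeriodPair) (Ω q : ℂ), Dat L Ω q →
  ∀ [Fintype (RR ⧸ sp fR)] (k : ℕ) (ι : Type) [DecidableEq ι] (S : Finset ι) (π : ι → RR),
  Fam S π →
  ∑ A ∈ S.powerset, (∏ i ∈ S \ A, ((π i : ℂ) ^ (k + 1) * ((starRingEnd ℂ) (π i : ℂ) ^ k)⁻¹ *
      e7 (π i) - ∏ j ∈ A, sy (π j) (π i))) *
    Bw Ω (Mk L q k) (∏ i ∈ A, π i) (fun m => ∏ i ∈ A, sy (π i) m) =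
  2 ^ S.card * Bw Ω (Mk L q k) (∏ i ∈ S, π i) (fun m => ∏ i ∈ S, hc (π i) m)

/-- BKL-29 (NSUB). -/
def S_NSUB : Prop := S_PAR → S_DIST → ∀ (L : PeriodPair) (Ω q : ℂ), Dat L Ω q →
  ∀ [Fintype (RR ⧸ sp fR)] (ι : Type) [DecidableEq ι] (S : Finset ι) (π : ι → RR),
  Fam S π → ∀ m : RR, m * bR - 1 ∈ sp (fR * ∏ i ∈ S, π i) → ∀ S' ⊆ S,
  Bw Ω (fun z => N1 L q (m * z)) (∏ i ∈ S', π i) (fun x => ∏ i ∈ S', sy (π i) x) =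
    (1 - bl⁻¹ * ∏ i ∈ S', sy (π i) aR) * (1 - bl⁻¹ * ∏ i ∈ S', sy (π i) bR) *
      Bw Ω (Mk L q 0) (∏ i ∈ S', π i) (fun x => ∏ i ∈ S', sy (π i) x) ∧
  ∑ A ∈ S'.powerset, (∏ i ∈ S' \ A, ((π i : ℂ) * e7 (π i) - ∏ j ∈ A, sy (π j) (π i))) *
    Bw Ω (fun z => N1 L q (m * z)) (∏ i ∈ A, π i) (fun x => ∏ i ∈ A, sy (π i) x) =
  2 ^ S'.card * Bw Ω (fun z => N1 L q (m * z)) (∏ i ∈ S', π i) (fun x => ∏ i ∈ S', hc (π i) x)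

/-- BKL-30 (EQ0). -/
def S_EQ0 : Prop := S_PAR → S_DIST → ∀ (L : PeriodPair) (Ω q : ℂ), Dat L Ω q →
  ∀ [Fintype (RR ⧸ sp fR)] (T : ℂ), Tendsto (fun δ : ℝ => GG Ω δ 1) (𝓝[>] 0) (𝓝 T) →
  ∀ (n : RR) (φ : RR → ℂ), Gd n → Pe n φ → Bw Ω (Mk L q 0) n φ = Bg L Ω T n φ

/-- the comparison with weight zero -/
def S_CK : Prop := ∀ (L : PeriodPair) (Ω q : ℂ), Dat L Ω q → ∀ (Γ : Type)
  [LinearOrderedCommGroupWithZero Γ] (v : Valuation ℂ Γ), v al < 1 → ∀ (z : ℂ) (n : ℕ), Oz L z →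
  Even n → 2 ≤ n → v (Mk L q n (bl * z) - N1 L q z) ≤ v 4

/-- BKL-31 (JD). -/
def S_JD : Prop := S_CK → S_PAR → ∀ (L : PeriodPair) (Ω q : ℂ), Dat L Ω q → ∀ (Γ : Type)
  [LinearOrderedCommGroupWithZero Γ] (v : Valuation ℂ Γ), v al < 1 →
  ∀ [Fintype (RR ⧸ sp fR)] (ι : Type) [DecidableEq ι] (S : Finset ι) (π : ι → RR),
  Fam S π → ∀ m : RR, m * bR - 1 ∈ sp (fR * ∏ i ∈ S, π i) → ∀ k : ℕ, Even k → 2 ≤ k →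
  v (Bw Ω (Mk L q k) (∏ i ∈ S, π i) (fun x => ∏ i ∈ S, hc (π i) x) -
    Bw Ω (fun z => N1 L q (m * z)) (∏ i ∈ S, π i) (fun x => ∏ i ∈ S, hc (π i) x)) < v 4

/-- BKL-32 (IND). -/
def S_IND : Prop := S_PAR → S_DIST → S_WSUB → S_NSUB → S_EQ0 → S_CK → S_JD →
  ∀ (L : PeriodPair) (Ω q : ℂ), Dat L Ω q → ∀ (Γ : Type)
  [LinearOrderedCommGroupWithZero Γ] (v : Valuation ℂ Γ), v al < 1 →
  ∀ [Fintype (RR ⧸ sp fR)] (ι : Type) [DecidableEq ι] (S : Finset ι) (π : ι → RR),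
  Fam S π → gd (mc π) (mr π) S ≠ 0 → ∏ i ∈ S, sy (π i) aR = 1 → ∏ i ∈ S, sy (π i) bR = 1 →
  ∀ k : ℕ, Even k → 2 ≤ k →
  v (Bw Ω (Mk L q k) (∏ i ∈ S, π i) (fun x => ∏ i ∈ S, sy (π i) x)) = v 4 * v 2 ^ S.card

/-- BKL-33 (CEN). -/
def S_CEN : Prop := S_PAR → S_DIST → ∀ (Q P : Finset ℕ), (∀ r ∈ Q, Inq r) → (∀ r ∈ P, Spl r) →
  ∀ e : ℕ, ∃ F : ℂ → ℂ, Differentiable ℂ F ∧
  (∀ z : ℂ, ((e + 1 : ℕ) : ℝ) + 1 / 2 < z.re → HasSum (fun I : Ideal RR =>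
    psi I ^ (2 * e + 1) * (∏ r ∈ Q ∪ P, qch r (nI I)) * (nm I : ℂ) ^ (-z)) (F z)) ∧
  ∀ [Fintype (RR ⧸ sp fR)] (L : PeriodPair) (Ω q : ℂ), Dat L Ω q →
    (F ((e + 1 : ℕ) : ℂ) = 0 ↔ Bw Ω (Mk L q e) ((∏ r ∈ Q ∪ P, r : ℕ) : RR)
      (fun m => ∏ r ∈ Q ∪ P, qch r (nR m)) = 0)

/-- the term of the L-series at `g = a + b al` -/
noncomputable def lt (D e : ℕ) (s : ℂ) (g : ℤ × ℤ) : ℂ :=
  ((jacobiSym (g.1 + 4 * g.2) 7 * jacobiSym (g.1 ^ 2 + g.1 * g.2 + 2 * g.2 ^ 2) D : ℤ) : ℂ) *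
    ((g.1 : ℂ) + g.2 * ((1 + Complex.I * (Real.sqrt 7 : ℂ)) / 2)) ^ (2 * e + 1) *
    ((g.1 ^ 2 + g.1 * g.2 + 2 * g.2 ^ 2 : ℤ) : ℂ) ^ (-s)

/-- BKL-34 (ELT). -/
def S_ELT : Prop := ∀ (Q P : Finset ℕ), (∀ r ∈ Q, Inq r) → (∀ r ∈ P, Spl r) → ∀ (e : ℕ) (z a : ℂ),
  HasSum (fun I : Ideal RR =>
    psi I ^ (2 * e + 1) * (∏ r ∈ Q ∪ P, qch r (nI I)) * (nm I : ℂ) ^ (-z)) a →
  HasSum (lt (∏ r ∈ Q ∪ P, r) e z) (2 * a)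

end Pool.Agent.Q274.BKL
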